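import Pool.Agent.Y671.GL.Spec4
import Pool.Agent.Y671.LD.Unit
import Pool.Agent.W169.HF.Asm

/-!
# Task HHT of project GD2: the heat flow of an entire function with zeros in the strip `|Re s| ≤ 1/2`
-/

set_option autoImplicit false

namespace Pool.Agent.Y275.GL

open Complex Filter Topology MeasureTheory Set
open scoped ComplexConjugate
open Pool.Agent.W169.HF

/-- the heat flow is Lipschitz in time at time zero, on both sides -/
theorem hs_lip {f : ℂ → ℂ} (hf : Slow f) : ∃ K : ℝ, 0 < K ∧ ∀ t : ℝ, |t| ≤ 1 → ∀ z : ℂ,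
    ‖hs t f z - f z‖ ≤ |t| * (K * Real.exp (‖z‖ ^ 2)) := by
  obtain ⟨K, hK, hb⟩ := der_all f hf (1 / 60) (by norm_num)
  refine ⟨K, hK, fun t ht1 z => ?_⟩
  have ht : 0 ≤ |t| := abs_nonneg t
  have hsum := (hs_all f hf t).1 z
  have hsum' : Summable fun k : ℕ => ((t ^ k / (k.factorial : ℝ) : ℝ) : ℂ) * iteratedDeriv (2 * k) f z :=
    hsum.of_norm
  have e : hs t f z - f z = ∑' k : ℕ, ((t ^ (k + 1) / ((k + 1).factorial : ℝ) : ℝ) : ℂ) *
      iteratedDeriv (2 * (k + 1)) f z := by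
    unfold hs
    rw [hsum'.tsum_eq_zero_add]
    simp
  have hE : Real.exp (2 * (1 / 60) * ‖z‖ ^ 2) ≤ Real.exp (‖z‖ ^ 2) := by
    apply Real.exp_le_exp.2
    nlinarith [sq_nonneg ‖z‖]
  have hterm : ∀ k : ℕ, ‖((t ^ (k + 1) / ((k + 1).factorial : ℝ) : ℝ) : ℂ) *
      iteratedDeriv (2 * (k + 1)) f z‖ ≤ |t| * (K * Real.exp (‖z‖ ^ 2)) * ((1 / 2 : ℝ) / 2 ^ k) := by
    intro k
    have hfac : (0 : ℝ) < ((k + 1).factorial : ℝ) := by exact_mod_cast Nat.factorial_pos _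
    rw [norm_mul, Complex.norm_real, Real.norm_eq_abs, abs_div, abs_pow, abs_of_pos hfac]
    have h1 := hb (k + 1) z
    have ht2 : |t| ^ (k + 1) ≤ |t| := by
      rw [pow_succ]
      have : |t| ^ k ≤ 1 := pow_le_one₀ ht ht1
      nlinarith
    calc |t| ^ (k + 1) / ((k + 1).factorial : ℝ) * ‖iteratedDeriv (2 * (k + 1)) f z‖
        ≤ |t| ^ (k + 1) / ((k + 1).factorial : ℝ) * (K * ((k + 1).factorial : ℝ) * (30 * (1 / 60)) ^ (k + 1) *
          Real.exp (2 * (1 / 60) * ‖z‖ ^ 2)) := by gcongr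
      _ = |t| ^ (k + 1) * (K * Real.exp (2 * (1 / 60) * ‖z‖ ^ 2)) * (1 / 2) ^ (k + 1) := by
          field_simp
          norm_num
      _ ≤ |t| * (K * Real.exp (‖z‖ ^ 2)) * (1 / 2) ^ (k + 1) := by gcongr
      _ = |t| * (K * Real.exp (‖z‖ ^ 2)) * ((1 / 2 : ℝ) / 2 ^ k) := by
          rw [pow_succ, one_div_pow]
          ring
  have hgeo : HasSum (fun k : ℕ => |t| * (K * Real.exp (‖z‖ ^ 2)) * ((1 / 2 : ℝ) / 2 ^ k))
      (|t| * (K * Real.exp (‖z‖ ^ 2)) * 1) := by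
    have := (hasSum_geometric_two' (1 : ℝ)).mul_left (|t| * (K * Real.exp (‖z‖ ^ 2)))
    exact this
  rw [e]
  refine (tsum_of_norm_bounded hgeo hterm).trans (le_of_eq ?_)
  ring

/-- local bound for the number of zeros near a given time -/
theorem loc_bound {f : ℂ → ℂ} (hf : Slow f) (hne : ∃ z, f z ≠ 0) (b T1 t0 : ℝ) :
    ∃ (C η : ℝ), 0 < η ∧ ∀ t : ℝ, |t - t0| < η → ∀ S : Finset ℂ,
      (∀ s ∈ S, |s.re| ≤ b ∧ |s.im| ≤ T1) →
      ∑ s ∈ S, (analyticOrderNatAt (hs t f) s : ℝ) ≤ C := by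
  obtain ⟨g, hg⟩ : ∃ g : ℂ → ℂ, g = hs t0 f := ⟨_, rfl⟩
  have hgs : Slow g := by rw [hg]; exact (hs_all f hf t0).2.1
  obtain ⟨c, hc⟩ : ∃ c, g c ≠ 0 := by
    rw [hg]
    exact Pool.Agent.W577.HF.hs_ne sg_all f hf hne t0
  obtain ⟨K, hK, hlip⟩ := hs_lip hgs
  obtain ⟨K1, hK1, hb1⟩ := hgs.2 1 one_pos
  have hgc : 0 < ‖g c‖ := norm_pos_iff.2 hc
  obtain ⟨r, hr⟩ : ∃ r : ℝ, r = ‖c‖ + |b| + |T1| + 1 := ⟨_, rfl⟩
  have hrp : 0 < r := by
    rw [hr]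
    positivity
  obtain ⟨ρ, hρ⟩ : ∃ ρ : ℝ, ρ = ‖c‖ + 2 * r := ⟨_, rfl⟩
  have hρ0 : 0 ≤ ρ := by
    rw [hρ]
    positivity
  obtain ⟨M, hM⟩ : ∃ M : ℝ, M = 1 + K1 * Real.exp (ρ ^ 2) + K * Real.exp (ρ ^ 2) := ⟨_, rfl⟩
  have hMpos : 1 ≤ M := by
    have h1 : 0 < K1 * Real.exp (ρ ^ 2) := by positivity
    have h2 : 0 < K * Real.exp (ρ ^ 2) := by positivity
    rw [hM]
    linarith
  obtain ⟨η, hη⟩ : ∃ η : ℝ, η = min 1 (‖g c‖ / (2 * (K * Real.exp (‖c‖ ^ 2)))) := ⟨_, rfl⟩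
  have hη0 : 0 < η := by
    rw [hη]
    exact lt_min one_pos (by positivity)
  refine ⟨Real.log (M / (‖g c‖ / 2)) / Real.log 2, η, hη0, ?_⟩
  intro t ht S hS
  have ht1 : |t - t0| ≤ 1 := ht.le.trans (by rw [hη]; exact min_le_left _ _)
  have ht2 : |t - t0| ≤ ‖g c‖ / (2 * (K * Real.exp (‖c‖ ^ 2))) :=
    ht.le.trans (by rw [hη]; exact min_le_right _ _)
  have hts : hs t f = hs (t - t0) g := by
    rw [hg, sg_all f hf]
    congr 1
    ring
  have hdiff : Differentiable ℂ (hs t f) := (hs_all f hf t).2.1.1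
  have hlow : ‖g c‖ / 2 ≤ ‖hs t f c‖ := by
    have h1 := hlip (t - t0) ht1 c
    rw [← hts] at h1
    have h2 : |t - t0| * (K * Real.exp (‖c‖ ^ 2)) ≤ ‖g c‖ / 2 := by
      have hpos : 0 < K * Real.exp (‖c‖ ^ 2) := by positivity
      calc |t - t0| * (K * Real.exp (‖c‖ ^ 2))
          ≤ ‖g c‖ / (2 * (K * Real.exp (‖c‖ ^ 2))) * (K * Real.exp (‖c‖ ^ 2)) := by gcongr
        _ = ‖g c‖ / 2 := by field_simp
    have h3 : ‖g c‖ ≤ ‖hs t f c - g c‖ + ‖hs t f c‖ := by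
      have := norm_sub_le (hs t f c) (hs t f c - g c)
      rw [sub_sub_cancel] at this
      linarith
    linarith
  have hcne : hs t f c ≠ 0 := by
    intro h0
    rw [h0, norm_zero] at hlow
    linarith
  have hup : ∀ z, ‖z - c‖ ≤ 2 * r → ‖hs t f z‖ ≤ M := by
    intro z hz
    have hzρ : ‖z‖ ≤ ρ := by
      have := norm_add_le (z - c) c
      rw [sub_add_cancel] at this
      rw [hρ]
      linarith
    have h1 := hlip (t - t0) ht1 z
    rw [← hts] at h1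
    have h2 := hb1 z
    rw [one_mul] at h2
    have h3 : Real.exp (‖z‖ ^ 2) ≤ Real.exp (ρ ^ 2) :=
      Real.exp_le_exp.2 (pow_le_pow_left₀ (norm_nonneg z) hzρ 2)
    have h4 : ‖hs t f z‖ ≤ ‖hs t f z - g z‖ + ‖g z‖ := by
      have := norm_add_le (hs t f z - g z) (g z)
      rwa [sub_add_cancel] at this
    have h5 : |t - t0| * (K * Real.exp (‖z‖ ^ 2)) ≤ 1 * (K * Real.exp (ρ ^ 2)) := by
      gcongr
    have h6 : K1 * Real.exp (‖z‖ ^ 2) ≤ K1 * Real.exp (ρ ^ 2) := by gcongr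
    rw [hM]
    linarith
  have hj := Pool.Agent.Y671.LD.jcount0 hdiff (c := c) (r := r) (R := 2 * r) (M := M) hrp (by linarith)
    hMpos hcne hup S (by
      intro s hs'
      obtain ⟨h1, h2⟩ := hS s hs'
      have h3 := norm_sub_le s c
      have h4 := Complex.norm_le_abs_re_add_abs_im s
      have h5 := le_abs_self b
      have h6 := le_abs_self T1
      rw [hr]
      linarith)
  refine hj.trans ?_
  rw [show 2 * r / r = 2 by field_simp]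
  have hl2 : 0 < Real.log 2 := Real.log_pos (by norm_num)
  apply div_le_div_of_nonneg_right _ hl2.le
  apply Real.log_le_log
  · have : 0 < ‖hs t f c‖ := norm_pos_iff.2 hcne
    positivity
  · gcongr

/-- uniform bound for the number of zeros for bounded times -/
theorem unif_bound {f : ℂ → ℂ} (hf : Slow f) (hne : ∃ z, f z ≠ 0) (b T1 a a' : ℝ) :
    ∃ C : ℝ, ∀ t ∈ Icc a a', ∀ S : Finset ℂ, (∀ s ∈ S, |s.re| ≤ b ∧ |s.im| ≤ T1) →
      ∑ s ∈ S, (analyticOrderNatAt (hs t f) s : ℝ) ≤ C := by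
  refine isCompact_Icc.induction_on (p := fun A : Set ℝ => ∃ C : ℝ, ∀ t ∈ A, ∀ S : Finset ℂ,
    (∀ s ∈ S, |s.re| ≤ b ∧ |s.im| ≤ T1) →
      ∑ s ∈ S, (analyticOrderNatAt (hs t f) s : ℝ) ≤ C) ?_ ?_ ?_ ?_
  · exact ⟨0, fun t ht => absurd ht (notMem_empty t)⟩
  · rintro A B hAB ⟨C, hC⟩
    exact ⟨C, fun t ht => hC t (hAB ht)⟩
  · rintro A B ⟨C, hC⟩ ⟨C', hC'⟩
    refine ⟨max C C', fun t ht S hS => ?_⟩
    rcases ht with ht | ht
    · exact (hC t ht S hS).trans (le_max_left _ _)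
    · exact (hC' t ht S hS).trans (le_max_right _ _)
  · intro t0 _
    obtain ⟨C, η, hη, hC⟩ := loc_bound hf hne b T1 t0
    refine ⟨Metric.ball t0 η, mem_nhdsWithin_of_mem_nhds (Metric.ball_mem_nhds t0 hη), C, ?_⟩
    intro t ht S hS
    exact hC t (by rwa [Metric.mem_ball, Real.dist_eq] at ht) S hS

lemma heat_sh (t : ℝ) (a : ℂ) (F : ℂ → ℂ) (s : ℂ) :
    heat t (fun z => F (z + a)) s = heat t F (s + a) := by
  unfold heat
  have h : ∀ v : ℝ, s + ((2 * Real.sqrt t * v : ℝ) : ℂ) + a = s + a + ((2 * Real.sqrt t * v : ℝ) : ℂ) :=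
    fun v => by ring
  simp only [h]

lemma slow_sh {f : ℂ → ℂ} (hf : Slow f) (a : ℂ) : Slow (fun z => f (z + a)) := by
  refine ⟨hf.1.comp (by fun_prop), fun δ hδ => ?_⟩
  obtain ⟨K, hK, hb⟩ := hf.2 (δ / 2) (by positivity)
  refine ⟨K * Real.exp (δ * ‖a‖ ^ 2), by positivity, fun z => ?_⟩
  refine (hb _).trans ?_
  rw [mul_assoc, ← Real.exp_add]
  apply mul_le_mul_of_nonneg_left _ hK.le
  apply Real.exp_le_exp.2
  have h1 := norm_add_le z a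
  have h2 := norm_nonneg (z + a)
  have h3 : ‖z + a‖ ^ 2 ≤ 2 * ‖z‖ ^ 2 + 2 * ‖a‖ ^ 2 := by nlinarith [sq_nonneg (‖z‖ - ‖a‖)]
  nlinarith

/-- zeros of the heat flow in the strip -/
theorem strip {X : ℂ → ℂ} (hX : Slow X) (hsym : ∀ z : ℂ, X (-(conj z)) = conj (X z))
    (hne : ∃ z, X z ≠ 0) (hz : ∀ s : ℂ, X s = 0 → |s.re| ≤ 1 / 2) (τ : ℝ) (s : ℂ) (hτ : 0 ≤ τ)
    (h0 : heat τ X s = 0) : |s.re| ≤ 1 / 2 := by
  obtain ⟨f, hf⟩ : ∃ f : ℂ → ℂ, f = fun z => X (z + (-(1 / 2 : ℂ))) := ⟨_, rfl⟩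
  have hfs : Slow f := by rw [hf]; exact slow_sh hX _
  have hfe : Fe f := by
    refine ⟨1, norm_one, fun w => ?_⟩
    rw [hf, one_mul]
    simp only
    rw [← hsym]
    congr 1
    simp only [map_add, map_sub, map_neg, map_one, map_div₀, conj_conj, map_ofNat]
    ring
  have hfn : ∃ z, f z ≠ 0 := by
    obtain ⟨z, hz'⟩ := hne
    refine ⟨z + 1 / 2, ?_⟩
    rw [hf]
    simpa using hz'
  have hfz : ∀ w : ℂ, f w = 0 → w.re ≤ 1 / 2 + 1 / 2 := by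
    intro w hw
    rw [hf] at hw
    have h1 := (abs_le.1 (hz _ hw)).2
    simp only [add_re, neg_re] at h1
    norm_num at h1
    linarith
  obtain ⟨-, hcl⟩ := db_all (1 / 2) f ⟨hfs, hfe, hfz⟩ hfn τ hτ
  have hff : ∀ w : ℂ, heat τ f w = heat τ X (w + (-(1 / 2 : ℂ))) := by
    intro w
    rw [hf, heat_sh]
  have h1 : heat τ f (s + 1 / 2) = 0 := by
    rw [hff]
    simpa using h0
  have h2 := hcl.zer _ h1
  obtain ⟨ε, hε, hfe'⟩ := hcl.fe
  have h3 : heat τ f (1 - conj (s + 1 / 2)) = 0 := by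
    have h8 := hfe' (s + 1 / 2)
    rw [h1] at h8
    have hε0 : ε ≠ 0 := by rintro rfl; simp at hε
    exact (map_eq_zero _).1 ((mul_eq_zero.1 h8.symm).resolve_left hε0)
  have h4 := hcl.zer _ h3
  rw [sub_re, one_re, conj_re] at h4
  rw [add_re] at h2 h4
  have h5 : ((1 : ℂ) / 2).re = 1 / 2 := by norm_num
  rw [h5] at h2 h4
  rw [abs_le]
  constructor <;> linarith

/-- Task HHT. -/
theorem hht : Pool.Agent.Y671.GL.S_HHT := by
  intro X hX hsym hne hz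
  refine ⟨?_, ?_, ?_, fun τ s hτ h0 => strip hX hsym hne hz τ s hτ h0, ?_⟩
  · rw [heat_all X hX 0 le_rfl, Pool.Agent.W577.HF.hs_zero_time]
  · intro τ hτ
    rw [heat_all X hX τ hτ]
    exact (hs_all X hX τ).2.1.1
  · intro τ z _
    exact Pool.Agent.W346.HF.int_shift X hX (2 * Real.sqrt τ) z
  · intro T1
    obtain ⟨C, hC⟩ := unif_bound hX hne (1 / 2) T1 0 (1 / 8)
    refine ⟨C, fun τ hτ hτ8 S hS => ?_⟩
    rw [heat_all X hX τ hτ]
    refine hC τ ⟨hτ, hτ8⟩ S fun s hs => ⟨?_, (hS s hs).1⟩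
    exact strip hX hsym hne hz τ s hτ (hS s hs).2

end Pool.Agent.Y275.GL
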